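import Pool.Agent.H.MP_11a8c1_an.Defs
import Pool.Agent.Lib.helper23.BLI

namespace Pool.Agent.H.MP_11a8c1_an

open Pool.Agent.Lib.helper23.BL Filter Set ContinuousMap
open scoped TensorProduct

section
variable {X Y P P' : Type} [BanachLattice X] [BanachLattice Y] [BanachLattice P] [BanachLattice P']

/-- the universal property for bundled bilinear maps -/
def IsFr (τ : X →L[ℝ] Y →L[ℝ] P) : Prop :=
  (∀ x y, 0 ≤ x → 0 ≤ y → 0 ≤ τ x y) ∧
    ∀ (Z : Type) [BanachLattice Z] (φ : X →L[ℝ] Y →L[ℝ] Z), (∀ x y, 0 ≤ x → 0 ≤ y → 0 ≤ φ x y) →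
      ∃ T : P →L[ℝ] Z, (∀ u, 0 ≤ u → 0 ≤ T u) ∧ (∀ x y, T (τ x y) = φ x y) ∧ ‖T‖ = ‖φ‖ ∧
        ∀ T' : P →L[ℝ] Z, (∀ u, 0 ≤ u → 0 ≤ T' u) → (∀ x y, T' (τ x y) = φ x y) → T' = T

theorem bilNorm (φ : X →L[ℝ] Y →L[ℝ] P) : BilNorm (fun x y => φ x y) ‖φ‖ :=
  ⟨⟨φ.opNorm_nonneg, φ.le_opNorm₂⟩, fun _ h => φ.opNorm_le_bound₂ h.1 h.2⟩

theorem fr_iff (τ : X →L[ℝ] Y →L[ℝ] P) : IsFr τ ↔ IsFremlin fun x y => τ x y := by
  refine ⟨fun h => ⟨⟨τ.isBoundedBilinearMap, h.1⟩, fun Z _ φ hφ => ?_⟩,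
    fun h => ⟨h.1.2, fun Z _ φ hφ => ?_⟩⟩
  · obtain ⟨T, t1, t2, t3, t4⟩ := h.2 Z hφ.1.toContinuousLinearMap hφ.2
    exact ⟨T, ⟨t1, t2⟩, t3 ▸ bilNorm hφ.1.toContinuousLinearMap, fun T' k => t4 T' k.1 k.2⟩
  · obtain ⟨T, t1, t3, t4⟩ := h.2 Z (fun x y => φ x y) ⟨φ.isBoundedBilinearMap, hφ⟩
    exact ⟨T, t1.1, t1.2, t3.unique (bilNorm φ), fun T' a b => t4 T' ⟨a, b⟩⟩

theorem pos_mono {T : X →L[ℝ] Y} (h : ∀ u, 0 ≤ u → 0 ≤ T u) {a b : X} (hab : a ≤ b) :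
    T a ≤ T b := by
  have := h _ (sub_nonneg.2 hab)
  rwa [map_sub, sub_nonneg] at this

theorem pos_abs {T : X →L[ℝ] Y} (h : ∀ u, 0 ≤ u → 0 ≤ T u) (a : X) : |T a| ≤ T |a| :=
  abs_le'.2 ⟨pos_mono h (le_abs_self a), by
    rw [← map_neg]; exact pos_mono h (neg_le_abs a)⟩

theorem hom_of_inv {T : X →L[ℝ] Y} {S : Y →L[ℝ] X} (h : ∀ u, 0 ≤ u → 0 ≤ T u)
    (k : ∀ u, 0 ≤ u → 0 ≤ S u) (e1 : ∀ x, S (T x) = x) (e2 : ∀ y, T (S y) = y) : IsHom T :=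
  fun x => le_antisymm (by
    have := pos_mono h (pos_abs k (T x))
    rwa [e1, e2] at this) (pos_abs h x)

theorem IsFr.self {τ : X →L[ℝ] Y →L[ℝ] P} (h : IsFr τ) : ‖τ‖ ≤ 1 ∧
    ∀ T : P →L[ℝ] P, (∀ u, 0 ≤ u → 0 ≤ T u) → (∀ x y, T (τ x y) = τ x y) → ∀ u, T u = u := by
  obtain ⟨T, -, -, t3, t4⟩ := h.2 P τ h.1
  have e := t4 (ContinuousLinearMap.id ℝ P) (fun _ h => h) fun _ _ => rfl
  refine ⟨by rw [← t3, ← e]; exact ContinuousLinearMap.norm_id_le, fun T' a b u => ?_⟩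
  rw [t4 T' a b, ← e]; rfl

theorem IsFr.proj {τ : X →L[ℝ] Y →L[ℝ] P} {τ' : X →L[ℝ] Y →L[ℝ] P'} (h : IsFr τ)
    (h' : IsFr τ') (hP : Projective P) : Projective P' := by
  obtain ⟨T, t1, t2, t3, -⟩ := h.2 P' τ' h'.1
  obtain ⟨S, s1, s2, s3, -⟩ := h'.2 P τ h.1
  have e1 : ∀ u, S (T u) = u := h.self.2 (S.comp T) (fun u hu => s1 _ (t1 u hu)) fun x y => by
    rw [ContinuousLinearMap.comp_apply, t2, s2]
  have e2 : ∀ u, T (S u) = u := h'.self.2 (T.comp S) (fun u hu => t1 _ (s1 u hu)) fun x y => by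
    rw [ContinuousLinearMap.comp_apply, s2, t2]
  exact hP.retract S T (hom_of_inv s1 t1 e2 e1) (hom_of_inv t1 s1 e1 e2)
    (fun y => (S.le_opNorm y).trans (mul_le_of_le_one_left (norm_nonneg _) (s3.trans_le h.self.1)))
    (fun y => (T.le_opNorm y).trans (mul_le_of_le_one_left (norm_nonneg _) (t3.trans_le h'.self.1)))
    e2

/-- the seminorm of a positive operator -/
noncomputable def posSN {T : X →L[ℝ] Y} (h : ∀ u, 0 ≤ u → 0 ≤ T u) : Seminorm ℝ X :=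
  Seminorm.of (fun u => ‖T |u|‖) (fun a b => le_trans (HasSolidNorm.solid
    (abs_le_abs_of_nonneg (h _ (abs_nonneg _)) ((pos_mono h (abs_add_le a b)).trans_eq
      (map_add _ _ _)))) (norm_add_le _ _)) fun c a => by
    simp only [abs_smul', map_smul, norm_smul, Real.norm_eq_abs, abs_abs]

end

variable {K L : Type} [TopologicalSpace K] [CompactSpace K] [TopologicalSpace L] [CompactSpace L]

theorem abs_le_one (x : C(K, ℝ)) : |x| ≤ ‖x‖ • (1 : C(K, ℝ)) := fun a => by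
  simpa using x.norm_coe_le_norm a

theorem largest {ι : Type} (g : ι → C(K, ℝ)) (b : ι → ℝ) (hb : ∀ i, 0 ≤ b i) (i0 : ι)
    (g0 : g i0 = 1) (b0 : b i0 ≤ 1) {C : ℝ} (h1 : 1 ≤ C) (hC : ∀ i, ‖g i‖ ≤ C * b i) :
    ∃ ρ : LatNorm C(K, ℝ), (∀ i, ρ.p (g i) ≤ b i) ∧ ∀ σ : Seminorm ℝ C(K, ℝ),
      (∀ a b, |a| ≤ |b| → σ a ≤ σ b) → ∀ c, 0 ≤ c → (∀ i, σ (g i) ≤ c * b i) →
        ∀ x, σ x ≤ c * ρ.p x := by
  have up : ∀ σ : Seminorm ℝ C(K, ℝ), (∀ a b, |a| ≤ |b| → σ a ≤ σ b) → ∀ x,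
      σ x ≤ ‖x‖ * σ 1 := fun σ hσ x =>
    (hσ x _ ((abs_le_one x).trans (le_abs_self _))).trans_eq (by rw [map_smul_eq_mul, norm_norm])
  have sc : ∀ (σ : Seminorm ℝ C(K, ℝ)) (c : ℝ), 0 < c → ∃ σ' : Seminorm ℝ C(K, ℝ),
      ∀ x, σ' x = c⁻¹ * σ x := fun σ c hc => ⟨σ.comp (c⁻¹ • LinearMap.id), fun x => by
    simp [map_smul_eq_mul, abs_of_pos hc]⟩
  have mem : ∀ (σ σ' : Seminorm ℝ C(K, ℝ)) (c : ℝ), 0 < c → (∀ x, σ' x = c⁻¹ * σ x) →
      (∀ a b, |a| ≤ |b| → σ a ≤ σ b) → (∀ i, σ (g i) ≤ c * b i) →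
      σ' ∈ {σ : Seminorm ℝ C(K, ℝ) | (∀ a b, |a| ≤ |b| → σ a ≤ σ b) ∧ ∀ i, σ (g i) ≤ b i} :=
    fun σ σ' c hc e k1 k2 => ⟨fun a b hab => by
      rw [e, e]; exact mul_le_mul_of_nonneg_left (k1 a b hab) (inv_pos.2 hc).le, fun i => by
      rw [e, inv_mul_le_iff₀ hc]; exact k2 i⟩
  obtain ⟨ρ, r1, r2⟩ := exists_latNorm {σ : Seminorm ℝ C(K, ℝ) |
      (∀ a b, |a| ≤ |b| → σ a ≤ σ b) ∧ ∀ i, σ (g i) ≤ b i} (fun σ h => h.1) (C := C)
      (by linarith) (fun σ h x => by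
        have a1 := up σ h.1 x
        have a2 := h.2 i0
        rw [g0] at a2
        nlinarith [norm_nonneg x]) fun x => by
    obtain ⟨σ', h⟩ := sc (normSeminorm ℝ C(K, ℝ)) C (by linarith)
    refine ⟨σ', mem _ σ' C (by linarith) h (fun a b hab => HasSolidNorm.solid hab) hC, ?_⟩
    rw [h, mul_inv_cancel_left₀ (by linarith)]; rfl
  refine ⟨ρ, fun i => r2 _ _ (hb i) fun σ h => h.2 i, fun σ k1 c hc k2 x => ?_⟩
  rcases hc.eq_or_lt with rfl | hc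
  · have a1 := up σ k1 x
    have a2 := k2 i0
    rw [g0, zero_mul] at a2
    nlinarith [norm_nonneg x]
  · obtain ⟨σ', h⟩ := sc σ c hc
    have := r1 σ' (mem σ σ' c hc h k1 k2) x
    rwa [h, inv_mul_le_iff₀ hc] at this

theorem unit (ρ : LatNorm C(K, ℝ)) : IsTopUnit (Renorm.eqv ρ 1) :=
  ⟨show (0 : C(K, ℝ)) ≤ 1 from fun _ => zero_le_one, fun J h => eq_top_iff.2 fun x _ =>
    J.solid _ (J.sub.smul_mem ‖(Renorm.eqv ρ).symm x‖ h) x
      ((abs_le_one ((Renorm.eqv ρ).symm x)).trans (le_abs_self _))⟩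

theorem pu [T2Space K] {V : Type} [NormedAddCommGroup V] [NormedSpace ℝ V] (g : C(K, V)) {ε : ℝ}
    (hε : 0 < ε) : ∃ (n : ℕ) (r : Fin n → C(K, ℝ)) (k : Fin n → K), (∀ j, 0 ≤ r j) ∧
      ∀ a, ‖g a - ∑ j, r j a • g (k j)‖ ≤ ε := by
  obtain ⟨t, ht⟩ := isCompact_univ.elim_finite_subcover (fun k : K => g ⁻¹' Metric.ball (g k) ε)
    (fun k => Metric.isOpen_ball.preimage g.continuous)
    fun k _ => mem_iUnion.2 ⟨k, Metric.mem_ball_self hε⟩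
  let k : Fin t.card → K := fun j => (t.equivFin.symm j).1
  obtain ⟨r, r1, r2, r3, -⟩ := exists_continuous_sum_one_of_isOpen_isCompact
    (s := fun j => g ⁻¹' Metric.ball (g (k j)) ε)
    (fun j => Metric.isOpen_ball.preimage g.continuous) isCompact_univ fun a ha => by
      obtain ⟨i, hi, h⟩ := mem_iUnion₂.1 (ht ha)
      exact mem_iUnion.2 ⟨t.equivFin ⟨i, hi⟩, by simpa [k] using h⟩
  refine ⟨_, r, k, fun j a => (r3 j a).1, fun a => ?_⟩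
  have e : ∑ j, r j a = 1 := by simpa using r2 (mem_univ a)
  have e2 : g a - ∑ j, r j a • g (k j) = ∑ j, r j a • (g a - g (k j)) := by
    simp only [smul_sub, Finset.sum_sub_distrib, ← Finset.sum_smul, e, one_smul]
  rw [e2, ← one_mul ε, ← e, Finset.sum_mul]
  refine (norm_sum_le _ _).trans (Finset.sum_le_sum fun j _ => ?_)
  rw [norm_smul, Real.norm_of_nonneg (r3 j a).1]
  by_cases h0 : r j a = 0
  · simp [h0]
  · have := r1 j (subset_tsupport _ h0)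
    exact mul_le_mul_of_nonneg_left (mem_ball_iff_norm.1 this).le (r3 j a).1

theorem dense_tensor [T2Space K] :
    DenseRange (tensorHom : C(K, ℝ) ⊗[ℝ] C(L, ℝ) → C(K × L, ℝ)) := by
  refine Metric.denseRange_iff.2 fun u ε hε => ?_
  obtain ⟨n, r, k, -, h⟩ := pu u.curry (half_pos hε)
  refine ⟨∑ j, r j ⊗ₜ u.curry (k j), lt_of_le_of_lt ?_ (half_lt_self hε)⟩
  rw [dist_eq_norm, ContinuousMap.norm_le _ (half_pos hε).le]
  rintro ⟨a, b⟩
  have := ((u.curry a - ∑ j, r j a • u.curry (k j)).norm_coe_le_norm b).trans (h a)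
  simpa [map_sum] using this

variable {Z : Type} [BanachLattice Z]

theorem nonneg_of_near {z : Z} (h : ∀ ε > 0, ∃ v, 0 ≤ v ∧ ‖z - v‖ ≤ ε) : 0 ≤ z := by
  have : z ∈ closure {v : Z | 0 ≤ v} := Metric.mem_closure_iff.2 fun ε hε => by
    obtain ⟨v, v1, v2⟩ := h _ (half_pos hε)
    exact ⟨v, v1, by rw [dist_eq_norm]; linarith⟩
  rwa [(isClosed_le continuous_const continuous_id').closure_eq] at this

theorem ext_pos [T2Space K] (φ : C(K, ℝ) →L[ℝ] C(L, ℝ) →L[ℝ] Z)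
    (hφ : ∀ x y, 0 ≤ x → 0 ≤ y → 0 ≤ φ x y) : ∃ T : C(K × L, ℝ) →L[ℝ] Z,
      (∀ u, 0 ≤ u → 0 ≤ T u) ∧ ∀ x y, T (x.prodMul y) = φ x y := by
  let Φ := TensorProduct.lift φ.toLinearMap₁₂
  have e : ∀ x y, Φ (x ⊗ₜ y) = φ x y := fun x y => TensorProduct.lift.tmul _ _
  have pos : ∀ w, 0 ≤ tensorHom w → 0 ≤ Φ w := by
    intro w hw
    obtain ⟨m, x, y, rfl⟩ := TensorProduct.exists_sum_tmul_eq w
    refine nonneg_of_near fun ε hε => ?_
    have hp : 0 < ∑ i, ‖φ‖ * ‖y i‖ + 1 := by positivity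
    obtain ⟨n, r, k, r0, h⟩ := pu (ContinuousMap.pi x) (div_pos hε hp)
    refine ⟨∑ i, φ (∑ j, x i (k j) • r j) (y i), ?_, ?_⟩
    · have : ∑ i, φ (∑ j, x i (k j) • r j) (y i) = ∑ j, φ (r j) (∑ i, x i (k j) • y i) := by
        simp only [map_sum, map_smul, _root_.sum_apply, _root_.smul_apply]
        exact Finset.sum_comm
      rw [this]
      refine Finset.sum_nonneg fun j _ => hφ _ _ (r0 j) fun b => ?_
      simpa [map_sum] using hw (k j, b)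
    · rw [map_sum, ← Finset.sum_sub_distrib]
      have a1 : ∀ i, ‖Φ (x i ⊗ₜ y i) - φ (∑ j, x i (k j) • r j) (y i)‖ ≤
          ε / (∑ i, ‖φ‖ * ‖y i‖ + 1) * (‖φ‖ * ‖y i‖) := fun i => by
        rw [e, ← _root_.sub_apply, ← map_sub]
        refine (φ.le_opNorm₂ _ _).trans ?_
        have : ‖x i - ∑ j, x i (k j) • r j‖ ≤ ε / (∑ i, ‖φ‖ * ‖y i‖ + 1) :=
          (ContinuousMap.norm_le _ (div_pos hε hp).le).2 fun a => by
            have := (norm_le_pi_norm _ i).trans (h a)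
            simpa [mul_comm] using this
        have := mul_le_mul_of_nonneg_left this (mul_nonneg (norm_nonneg φ) (norm_nonneg (y i)))
        linarith
      refine (norm_sum_le _ _).trans ((Finset.sum_le_sum fun i _ => a1 i).trans ?_)
      rw [← Finset.mul_sum, div_mul_eq_mul_div, div_le_iff₀ hp]
      nlinarith
  have one : tensorHom ((1 : C(K, ℝ)) ⊗ₜ[ℝ] (1 : C(L, ℝ))) = 1 := by ext; simp
  have bd : ∀ w, ‖Φ w‖ ≤ ‖φ 1 1‖ * ‖tensorHom w‖ := fun w => by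
    have a1 := abs_le'.1 (abs_le_one (tensorHom w))
    have a2 := pos (‖tensorHom w‖ • 1 ⊗ₜ 1 - w) (by
      rw [map_sub, map_smul, one, sub_nonneg]; exact a1.1)
    have a3 := pos (‖tensorHom w‖ • 1 ⊗ₜ 1 - -w) (by
      rw [map_sub, map_smul, one, sub_nonneg, map_neg]; exact a1.2)
    rw [map_sub, map_smul, e, sub_nonneg] at a2 a3
    rw [map_neg] at a3
    refine (HasSolidNorm.solid ((abs_le'.2 ⟨a2, a3⟩).trans (le_abs_self _))).trans_eq ?_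
    rw [norm_smul, norm_norm, mul_comm]
  have he := LinearMap.extendOfNorm_eq (f := Φ) dense_tensor ⟨_, bd⟩
  refine ⟨Φ.extendOfNorm tensorHom, fun u hu => nonneg_of_near fun ε hε => ?_,
    fun x y => by rw [← tensorHom_tmul, he, e]⟩
  have hp : 0 < 2 * ‖φ 1 1‖ + 1 := by positivity
  obtain ⟨w, hw⟩ := Metric.denseRange_iff.1 dense_tensor u _ (div_pos hε hp)
  set η := ε / (2 * ‖φ 1 1‖ + 1) with hη
  have η0 : 0 < η := div_pos hε hp
  have η1 : η * (2 * ‖φ 1 1‖ + 1) = ε := div_mul_cancel₀ _ hp.ne'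
  rw [dist_eq_norm] at hw
  refine ⟨Φ (w + η • 1 ⊗ₜ 1), pos _ fun a => ?_, ?_⟩
  · have a1 := (abs_le.1 (((u - tensorHom w).norm_coe_le_norm a).trans hw.le)).2
    have a2 : 0 ≤ u a := hu a
    rw [map_add, map_smul, one]
    rw [ContinuousMap.sub_apply] at a1
    show (0 : ℝ) ≤ tensorHom w a + η * 1
    linarith
  · rw [← he, ← map_sub]
    refine (LinearMap.norm_extendOfNorm_apply_le dense_tensor _ bd _).trans ?_
    have : ‖u - tensorHom (w + η • 1 ⊗ₜ 1)‖ ≤ 2 * η := by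
      rw [map_add, map_smul, one, ← sub_sub]
      refine (norm_sub_le _ _).trans ?_
      have : ‖η • (1 : C(K × L, ℝ))‖ ≤ η := (ContinuousMap.norm_le _ η0.le).2 fun a => by
        simp [abs_of_pos η0]
      linarith
    nlinarith [norm_nonneg (φ 1 1)]

theorem fremlin [T2Space K] (ρ : LatNorm C(K, ℝ)) (ρ' : LatNorm C(L, ℝ)) (h : ρ.p 1 ≤ 1)
    (h' : ρ'.p 1 ≤ 1) : ∃ (π : LatNorm C(K × L, ℝ))
      (τ : Renorm ρ →L[ℝ] Renorm ρ' →L[ℝ] Renorm π), IsFr τ ∧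
      (∀ x y, π.p (x.prodMul y) ≤ ρ.p x * ρ'.p y) ∧ ∀ σ : Seminorm ℝ C(K × L, ℝ),
      (∀ a b, |a| ≤ |b| → σ a ≤ σ b) → (∀ x y, σ (x.prodMul y) ≤ ρ.p x * ρ'.p y) →
        ∀ x, σ x ≤ π.p x := by
  obtain ⟨π, p1, p2⟩ := largest (fun q : C(K, ℝ) × C(L, ℝ) => q.1.prodMul q.2)
    (fun q => ρ.p q.1 * ρ'.p q.2) (fun q => by positivity) (1, 1) (by ext; simp)
    (mul_le_one₀ h (apply_nonneg _ _) h') (C := |ρ.C| * |ρ'.C| + 1)
    (le_add_of_nonneg_left (by positivity)) fun q => by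
      refine (ContinuousMap.norm_le _ (by positivity)).2 fun a => ?_
      have a1 := (q.1.norm_coe_le_norm a.1).trans ((ρ.ge _).trans
        (mul_le_mul_of_nonneg_right (le_abs_self _) (apply_nonneg _ _)))
      have a2 := (q.2.norm_coe_le_norm a.2).trans ((ρ'.ge _).trans
        (mul_le_mul_of_nonneg_right (le_abs_self _) (apply_nonneg _ _)))
      have a3 := mul_le_mul a1 a2 (norm_nonneg _) (by positivity)
      have a4 : 0 ≤ ρ.p q.1 * ρ'.p q.2 := by positivity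
      rw [prodMul_apply, norm_mul]
      nlinarith
  let τ : Renorm ρ →L[ℝ] Renorm ρ' →L[ℝ] Renorm π := LinearMap.mkContinuous₂
    (LinearMap.mk₂ ℝ (fun x y => Renorm.eqv π
      (((Renorm.eqv ρ).symm x).prodMul ((Renorm.eqv ρ').symm y)))
      (by simp) (by simp) (by simp) (by simp)) 1 fun x y => by
        rw [one_mul]; exact p1 ((Renorm.eqv ρ).symm x, (Renorm.eqv ρ').symm y)
  have τ1 : ∀ x y, τ x y = Renorm.eqv π
    (((Renorm.eqv ρ).symm x).prodMul ((Renorm.eqv ρ').symm y)) := fun _ _ => rfl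
  refine ⟨π, τ, ⟨fun x y hx hy a => mul_nonneg (hx a.1) (hy a.2), fun Z _ φ hφ => ?_⟩,
    fun x y => p1 (x, y), fun σ k1 k2 x => by
      simpa using p2 σ k1 1 zero_le_one (fun q => by simpa using k2 q.1 q.2) x⟩
  obtain ⟨T, t1, t2⟩ := ext_pos (φ.bilinearComp (Renorm.eqv ρ : C(K, ℝ) →L[ℝ] Renorm ρ)
    (Renorm.eqv ρ' : C(L, ℝ) →L[ℝ] Renorm ρ')) fun x y hx hy => hφ _ _ hx hy
  have t3 : ∀ x y, T (((Renorm.eqv ρ).symm x).prodMul ((Renorm.eqv ρ').symm y)) = φ x y :=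
    fun x y => t2 _ _
  refine ⟨T.comp ((Renorm.eqv π).symm : Renorm π →L[ℝ] C(K × L, ℝ)), fun u hu => t1 _ hu,
    t3, le_antisymm ?_ ?_, fun T' _ k => ?_⟩
  · refine ContinuousLinearMap.opNorm_le_bound _ (norm_nonneg φ) fun u => ?_
    refine le_trans (HasSolidNorm.solid ((pos_abs t1 _).trans (le_abs_self _)))
      (p2 (posSN t1) (fun a b hab => HasSolidNorm.solid (abs_le_abs_of_nonneg
        (t1 _ (abs_nonneg _)) (pos_mono t1 hab))) _ (norm_nonneg φ) (fun q => ?_)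
        ((Renorm.eqv π).symm u))
    have e : |q.1.prodMul q.2| = |q.1|.prodMul |q.2| := by ext; simp [abs_mul]
    show ‖T |q.1.prodMul q.2|‖ ≤ _
    rw [e, t2, ← mul_assoc]
    refine (φ.le_opNorm₂ _ _).trans ?_
    exact mul_le_mul (mul_le_mul_of_nonneg_left (ρ.solid _ _ (abs_abs _).le) φ.opNorm_nonneg)
      (ρ'.solid _ _ (abs_abs _).le) (norm_nonneg _) (by positivity)
  · refine ContinuousLinearMap.opNorm_le_bound₂ _ (norm_nonneg _) fun x y => ?_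
    rw [← t3, mul_assoc]
    exact ((T.comp ((Renorm.eqv π).symm : Renorm π →L[ℝ] C(K × L, ℝ))).le_opNorm (τ x y)).trans
      (mul_le_mul_of_nonneg_left (p1 ((Renorm.eqv ρ).symm x, (Renorm.eqv ρ').symm y))
        (norm_nonneg _))
  · ext u
    have : ∀ u, T' (Renorm.eqv π u) = T u := fun u => by
      refine dense_tensor.induction_on (p := fun u => T' (Renorm.eqv π u) = T u) u
        (isClosed_eq (by fun_prop) T.continuous) fun w => ?_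
      induction w with
      | zero => simp
      | tmul x y => rw [tensorHom_tmul, t2]; exact k (Renorm.eqv ρ x) (Renorm.eqv ρ' y)
      | add a b ha hb => simp only [map_add, ha, hb]
    exact this ((Renorm.eqv π).symm u)

end Pool.Agent.H.MP_11a8c1_an
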