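import Pool.Agent.H.MP_11a8c1_an.A

namespace Pool.Agent.H.MP_11a8c1_an

open Pool.Agent.Lib.helper23.BL Filter Set ContinuousMap
open scoped unitInterval ENNReal

/-- the constant one and the coordinates of a cube -/
noncomputable def gen (A : Type) : Option A → C(A → I, ℝ)
  | none => 1
  | some α => ⟨fun a => a α, by fun_prop⟩

theorem gen_nonneg {A : Type} (i : Option A) : 0 ≤ gen A i := fun a => by
  cases i
  · exact zero_le_one
  · exact (a _).2.1

theorem gen_le {A : Type} (i : Option A) (a : A → I) : |gen A i a| ≤ 1 := by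
  rw [abs_of_nonneg (show 0 ≤ gen A i a from gen_nonneg i a)]
  cases i
  · exact le_rfl
  · exact (a _).2.2

theorem gen_dense (A : Type) : DenseRange fun t : Tm (Option A) => t.eval (gen A) := by
  refine dense_iff_closure_eq.2 (sublattice_closure_eq_top _ ⟨_, .zero, rfl⟩ ?_ ?_ ?_)
  · rintro _ ⟨s, rfl⟩ _ ⟨t, rfl⟩
    exact ⟨s.inf t, rfl⟩
  · rintro _ ⟨s, rfl⟩ _ ⟨t, rfl⟩
    exact ⟨s.sup t, rfl⟩
  · intro v x y
    by_cases h : x = y
    · exact ⟨_, ⟨.smul (v x) (.var none), rfl⟩, by simp [gen], by simp [gen, h]⟩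
    obtain ⟨α, hα⟩ := Function.ne_iff.1 h
    have h1 : (x α : ℝ) - y α ≠ 0 := sub_ne_zero.2 fun k => hα (Subtype.ext k)
    refine ⟨_, ⟨.add (.smul (v y - (v x - v y) / (x α - y α) * y α) (.var none))
      (.smul ((v x - v y) / (x α - y α)) (.var (some α))), rfl⟩, ?_, ?_⟩
    · simp [gen]; field_simp; ring
    · simp [gen]

theorem calculus {A Z : Type} [BanachLattice Z] (y : Option A → Z) (h0 : ∀ i, 0 ≤ y i)
    (h1 : ∀ i, y i ≤ y none) : ∃ S : C(A → I, ℝ) →L[ℝ] Z, IsHom S ∧ ∀ i, S (gen A i) = y i := by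
  obtain ⟨T, t1, t2⟩ := exists_ev y
  obtain ⟨e, e1, e2⟩ := exists_ev (gen A)
  have hd : DenseRange e := (gen_dense A).mono (by
    rintro _ ⟨t, rfl⟩
    exact ⟨mkV t, e1 t⟩)
  have bd : ∀ a, ‖T a‖ ≤ ‖y none‖ * ‖e a‖ := fun a => by
    obtain ⟨t, rfl⟩ := mkV_surj a
    rw [t1, e1]
    have k := yudin y (t.bind fun i => .inf (.sup (.var i) .zero) (.sup (.var none) .zero)).abs
      (.smul ‖t.eval (gen A)‖ (.sup (.var none) .zero)) fun z => by
        simp only [Tm.eval_abs, Tm.eval_bind, Tm.eval_smul, Tm.eval_inf, Tm.eval_sup,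
          Tm.eval_var, Tm.eval_zero, smul_eq_mul]
        set c := max (z none) 0 with hc
        have c0 : 0 ≤ c := le_max_right _ _
        let p : A → I := fun α => ⟨min (max (z (some α)) 0) c / c,
          div_nonneg (le_min (le_max_right _ _) c0) c0, div_le_one_of_le₀ (min_le_right _ _) c0⟩
        have e3 : (fun i => min (max (z i) 0) c) = fun i => c * gen A i p := funext fun i => by
          cases i with
          | none => simp [gen, hc]
          | some α =>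
            show _ = c * (min (max (z (some α)) 0) c / c)
            rcases c0.eq_or_lt with h | h
            · rw [← h]; simp
            · field_simp
        rw [e3, t.homog c0, abs_mul, abs_of_nonneg c0, mul_comm]
        refine mul_le_mul_of_nonneg_right ?_ c0
        exact ((evalC_hom p).eval (gen A) t).symm ▸ (t.eval (gen A)).norm_coe_le_norm p
    simp only [Tm.eval_abs, Tm.eval_bind, Tm.eval_smul, Tm.eval_inf, Tm.eval_sup,
      Tm.eval_var, Tm.eval_zero, sup_eq_left.2 (h0 _), inf_eq_left.2 (h1 _)] at k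
    refine (HasSolidNorm.solid (k.trans (le_abs_self _))).trans_eq ?_
    rw [norm_smul, norm_norm, mul_comm]
  have he := LinearMap.extendOfNorm_eq (f := T) hd ⟨_, bd⟩
  refine ⟨T.extendOfNorm e, fun x => ?_, fun i => ?_⟩
  · refine hd.induction_on (p := fun x => T.extendOfNorm e |x| = |T.extendOfNorm e x|) x
      (isClosed_eq ((ContinuousLinearMap.continuous _).comp cont_abs)
        (cont_abs.comp (ContinuousLinearMap.continuous _))) fun a => ?_
    rw [← e2, he, he, t2]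
  · exact (congrArg _ (e1 (.var i)).symm).trans ((he _).trans (t1 _))

/-- the norm bounds for the generators -/
noncomputable def bnd {A : Type} : Option A → ℝ
  | none => 1
  | some _ => 1 / 2

theorem bnd_pos {A : Type} (i : Option A) : 1 / 2 ≤ bnd i := by
  cases i <;> norm_num [bnd]

theorem cube (A : Type) : ∃ ρ : LatNorm C(A → I, ℝ), Projective (Renorm ρ) ∧
    (∀ i, ρ.p (gen A i) ≤ bnd i) ∧ ∀ ν : Seminorm ℝ C(A → I, ℝ),
      (∀ a b, |a| ≤ |b| → ν a ≤ ν b) → ∀ c, 0 ≤ c → (∀ i, ν (gen A i) ≤ c * bnd i) →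
        ∀ x, ν x ≤ c * ρ.p x := by
  obtain ⟨ρ, r1, r2⟩ := largest (gen A) bnd (fun i => by linarith [bnd_pos i]) none rfl le_rfl
    (C := 2) one_le_two fun i => (ContinuousMap.norm_le _ (by linarith [bnd_pos i])).2 fun a =>
      (gen_le i a).trans (by linarith [bnd_pos i])
  refine ⟨ρ, fun Z _ J T hT ε hε => ?_, r1, r2⟩
  let T' : C(A → I, ℝ) →L[ℝ] Quo J := T.comp (Renorm.eqv ρ : _ →L[ℝ] _)
  have hT' : IsHom T' := hT.comp (Renorm.eqv_hom ρ)
  choose x x0 x1 x2 using fun i => exists_lift_pos (hT'.nonneg (gen_nonneg i))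
    (c := ‖T‖ * bnd i) ((T.le_opNorm _).trans
      (mul_le_mul_of_nonneg_left (r1 i) (norm_nonneg _))) hε
  obtain ⟨S, s1, s2⟩ := calculus (fun i => x i ⊓ x none) (fun i => le_inf (x0 _) (x0 _))
    fun i => by simp
  have e : (Quo.mk J).comp S = T' := hom_ext (gen_dense A) ((mk_hom J).comp s1) hT' fun i => by
    rw [ContinuousLinearMap.comp_apply, s2, Quo.mk_inf, x1, x1, inf_eq_left]
    exact hT'.mono fun a => (le_abs_self _).trans (gen_le i a)
  refine ⟨S.comp ((Renorm.eqv ρ).symm : _ →L[ℝ] _), s1.comp (Renorm.symm_hom ρ),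
    fun x => DFunLike.congr_fun e ((Renorm.eqv ρ).symm x),
    ContinuousLinearMap.opNorm_le_bound _ (by positivity) fun z => ?_⟩
  refine r2 (pull S) (pull_solid s1) _ (by positivity) (fun i => ?_) ((Renorm.eqv ρ).symm z)
  rw [pull_apply, s2, mul_assoc]
  exact le_trans (HasSolidNorm.solid (abs_le_abs_of_nonneg (le_inf (x0 _) (x0 _)) inf_le_left))
    (x2 i)

/-- bounded families -/
abbrev W : Type := LpSum (fun _ : ℕ × (ℕ → ℕ) × ℕ => ℝ) ∞

theorem mkW (z : ℕ × (ℕ → ℕ) × ℕ → ℝ) {C : ℝ} (h : ∀ i, |z i| ≤ C) :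
    Memℓp (E := fun _ => ℝ) z ∞ := memℓp_infty ⟨C, by
  rintro _ ⟨i, rfl⟩; exact h i⟩

theorem W_le (z : W) (i : ℕ × (ℕ → ℕ) × ℕ) : |z.1 i| ≤ ‖z‖ :=
  lp.norm_apply_le_norm (E := fun _ => ℝ) ENNReal.top_ne_zero z i

theorem W_norm (z : W) {C : ℝ} (h0 : 0 ≤ C) (h : ∀ i, |z.1 i| ≤ C) : ‖z‖ ≤ C :=
  lp.norm_le_of_forall_le (E := fun _ => ℝ) h0 h

/-- eventually vanishing families -/
def ev : Submodule ℝ W where
  carrier := {z | ∃ n, ∀ i : ℕ × (ℕ → ℕ) × ℕ, n ≤ i.1 → z.1 i = 0}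
  zero_mem' := ⟨0, fun _ _ => rfl⟩
  add_mem' := fun {a b} ⟨n, h⟩ ⟨m, k⟩ => ⟨max n m, fun i hi => by
    show a.1 i + b.1 i = 0
    rw [h i (le_of_max_le_left hi), k i (le_of_max_le_right hi), add_zero]⟩
  smul_mem' := fun c a ⟨n, h⟩ => ⟨n, fun i hi => by
    show c * a.1 i = 0
    rw [h i hi, mul_zero]⟩

/-- the ideal of uniformly null families -/
noncomputable def JJ : ClosedIdeal W := closureIdeal ev fun a ⟨n, h⟩ b hb => ⟨n, fun i hi => by
  have : |b.1 i| ≤ |a.1 i| := hb i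
  rw [h i hi, abs_zero] at this
  exact abs_nonpos_iff.1 this⟩

theorem JJ_small {z : W} (h : z ∈ JJ.sub) {η : ℝ} (hη : 0 < η) :
    ∃ n, ∀ i : ℕ × (ℕ → ℕ) × ℕ, n ≤ i.1 → |z.1 i| ≤ η := by
  obtain ⟨v, ⟨n, hn⟩, hv⟩ := Metric.mem_closure_iff.1 h η hη
  refine ⟨n, fun i hi => ?_⟩
  have : |z.1 i - v.1 i| ≤ ‖z - v‖ := W_le (z - v) i
  rw [hn i hi, sub_zero, ← dist_eq_norm] at this
  linarith

/-- a vertex of the cube -/
noncomputable def vx {A : Type} (α : A) : A → I := by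
  classical exact fun β => if β = α then 1 else 0

theorem gen_vx {A : Type} (α : A) : gen A (some α) (vx α) = 1 := by simp [gen, vx]

theorem gen_vx' {A : Type} {α β : A} (h : gen A (some β) (vx α) ≠ 0) : β = α := by
  by_contra k
  simp [gen, vx, k] at h

/-- the weights -/
noncomputable def wt (i : ℕ × (ℕ → ℕ) × ℕ) : ℝ := if i.1 < i.2.1 i.2.2 then 1 / 2 else 1 / 4

theorem wt_bd (i : ℕ × (ℕ → ℕ) × ℕ) : 0 ≤ wt i ∧ wt i ≤ 1 / 2 := by
  unfold wt; split_ifs <;> norm_num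

theorem wt_le (u : C((((ℕ → ℕ) → I) × (ℕ → I)), ℝ)) (i : ℕ × (ℕ → ℕ) × ℕ) :
    |wt i * u (vx i.2.1, vx i.2.2)| ≤ 1 / 2 * ‖u‖ := by
  rw [abs_mul, abs_of_nonneg (wt_bd i).1]
  exact mul_le_mul (wt_bd i).2 (u.norm_coe_le_norm _) (abs_nonneg _) (by norm_num)

/-- the weighted evaluations -/
noncomputable def TT : C((((ℕ → ℕ) → I) × (ℕ → I)), ℝ) →L[ℝ] W :=
  LinearMap.mkContinuous
    { toFun := fun u => ⟨fun i => wt i * u (vx i.2.1, vx i.2.2), mkW _ (wt_le u)⟩
      map_add' := fun u v => Subtype.ext (funext fun i => mul_add _ _ _)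
      map_smul' := fun c u => Subtype.ext (funext fun i => mul_left_comm _ _ _) }
    (1 / 2) fun u => W_norm _ (by positivity) (wt_le u)

theorem TT_apply (u : C((((ℕ → ℕ) → I) × (ℕ → I)), ℝ)) (i : ℕ × (ℕ → ℕ) × ℕ) :
    (TT u).1 i = wt i * u (vx i.2.1, vx i.2.2) := rfl

theorem TT_hom : IsHom TT := fun u => Subtype.ext (funext fun i => by
  show wt i * |u _| = |wt i * u _|
  rw [abs_mul, abs_of_nonneg (wt_bd i).1])

theorem TT_gen (i : Option (ℕ → ℕ)) (j : Option ℕ) :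
    ‖Quo.mk JJ (TT ((gen _ i).prodMul (gen _ j)))‖ ≤ bnd i * bnd j := by
  have n1 : ‖(gen _ i).prodMul (gen _ j)‖ ≤ 1 := (ContinuousMap.norm_le _ zero_le_one).2 fun a => by
    rw [prodMul_apply, norm_mul]
    exact mul_le_one₀ (gen_le i _) (norm_nonneg _) (gen_le j _)
  have n2 : ‖Quo.mk JJ (TT ((gen _ i).prodMul (gen _ j)))‖ ≤ 1 / 2 := (norm_mk_le _ _).trans
    (W_norm _ (by norm_num) fun k => (wt_le _ k).trans (by linarith))
  rcases i with _ | α
  · exact n2.trans (by simpa [bnd] using bnd_pos j)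
  rcases j with _ | b
  · exact n2.trans (by simp [bnd])
  set z := TT ((gen _ (some α)).prodMul (gen _ (some b))) with hz
  let v : W := ⟨fun k => if k.1 < α b then 0 else z.1 k, mkW _ (C := ‖z‖) fun k => by
    split_ifs
    · simp
    · exact W_le z k⟩
  have e : Quo.mk JJ z = Quo.mk JJ v := (Quo.mk_eq _).2 (ev.le_topologicalClosure ⟨α b,
    fun k hk => by
      show z.1 k - (if k.1 < α b then 0 else z.1 k) = 0
      rw [if_neg (not_lt.2 hk), sub_self]⟩)
  rw [e]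
  refine (norm_mk_le _ _).trans (W_norm _ (by norm_num [bnd]) fun k => ?_)
  show |if k.1 < α b then 0 else z.1 k| ≤ 1 / 2 * (1 / 2)
  split_ifs with hk
  · norm_num
  rw [hz, TT_apply, prodMul_apply]
  by_cases h0 : gen _ (some α) (vx k.2.1) * gen _ (some b) (vx k.2.2) = 0
  · rw [h0]; norm_num
  · obtain ⟨h1, h2⟩ := mul_ne_zero_iff.1 h0
    rw [← gen_vx' h1, ← gen_vx' h2, gen_vx, gen_vx, wt, ← gen_vx' h1, ← gen_vx' h2, if_neg hk]
    norm_num

theorem not_proj (π : LatNorm C((((ℕ → ℕ) → I) × (ℕ → I)), ℝ))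
    (h1 : ∀ α b, π.p ((gen _ (some α)).prodMul (gen _ (some b))) ≤ 1 / 4)
    (h2 : ∀ u, ‖Quo.mk JJ (TT u)‖ ≤ π.p u) : ¬ Projective (Renorm π) := by
  intro hP
  let T : Renorm π →L[ℝ] Quo JJ := ((Quo.mk JJ).comp TT).comp ((Renorm.eqv π).symm : _ →L[ℝ] _)
  have nT : ‖T‖ ≤ 1 := ContinuousLinearMap.opNorm_le_bound _ zero_le_one fun u => by
    rw [one_mul]; exact h2 _
  obtain ⟨S, s1, s2, s3⟩ := hP W JJ T (((mk_hom JJ).comp TT_hom).comp (Renorm.symm_hom π))
    (1 / 2) (by norm_num)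
  choose N hN using fun u : C((((ℕ → ℕ) → I) × (ℕ → I)), ℝ) => JJ_small
    ((Quo.mk_eq JJ).1 (s2 (Renorm.eqv π u) : Quo.mk JJ (S (Renorm.eqv π u)) = Quo.mk JJ (TT u)))
    (show (0 : ℝ) < 1 / 30 by norm_num)
  let f : Option (ℕ → ℕ) → Option ℕ → C((((ℕ → ℕ) → I) × (ℕ → I)), ℝ) :=
    fun i j => (gen _ i).prodMul (gen _ j)
  let α : ℕ → ℕ := fun b => N (f none (some b)) + b + 1
  let b : ℕ := N (f (some α) none) + N (f none none)
  let k : ℕ × (ℕ → ℕ) × ℕ := (N (f none (some b)) + b, α, b)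
  have w : wt k = 1 / 2 := if_pos (Nat.lt_succ_self _)
  have a : ∀ i j, N (f i j) ≤ k.1 → gen _ i (vx α) = 1 → gen _ j (vx b) = 1 →
      |(S (Renorm.eqv π (f i j))).1 k - 1 / 2| ≤ 1 / 30 := fun i j h e1 e2 => by
    have : |(S (Renorm.eqv π (f i j))).1 k - wt k * (gen _ i (vx α) * gen _ j (vx b))| ≤ 1 / 30 :=
      hN (f i j) k h
    rwa [w, e1, e2, mul_one, mul_one] at this
  have a1 := (abs_le.1 (a none none (by simp only [k, b]; omega) rfl rfl)).2
  have a2 := (abs_le.1 (a (some α) none (by simp only [k, b]; omega) (gen_vx _) rfl)).1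
  have a3 := (abs_le.1 (a none (some b) (by simp only [k]; omega) rfl (gen_vx _))).1
  have a4 : (S (Renorm.eqv π (f (some α) none))).1 k + (S (Renorm.eqv π (f none (some b)))).1 k ≤
      (S (Renorm.eqv π (f (some α) (some b)))).1 k + (S (Renorm.eqv π (f none none))).1 k := by
    have := s1.mono (a := Renorm.eqv π (f (some α) none) + Renorm.eqv π (f none (some b)))
      (b := Renorm.eqv π (f (some α) (some b)) + Renorm.eqv π (f none none)) fun q => by
        show (q.1 α : ℝ) * 1 + 1 * (q.2 b : ℝ) ≤ (q.1 α : ℝ) * (q.2 b : ℝ) + 1 * 1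
        nlinarith [(q.1 α).2.2, (q.2 b).2.2]
    rw [map_add, map_add] at this
    exact this k
  have a5 := (le_abs_self _).trans ((W_le (S (Renorm.eqv π (f (some α) (some b)))) k).trans
    ((S.le_opNorm _).trans (mul_le_mul (s3.trans (mul_le_of_le_one_right (by norm_num) nT))
      (h1 α b) (norm_nonneg _) (by norm_num))))
  linarith

end Pool.Agent.H.MP_11a8c1_an
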