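import Mathlib
import Pool.Agent.Lib.helper23.BLDef

namespace Pool.Agent.H.MP_11a8c1_an

open Pool.Agent.Lib.helper23.BL

variable {X Y P Z : Type} [BanachLattice X] [BanachLattice Y] [BanachLattice P] [BanachLattice Z]

/-- bounded positive bilinear maps -/
def PosBil (φ : X → Y → Z) : Prop :=
  IsBoundedBilinearMap ℝ (fun q : X × Y => φ q.1 q.2) ∧ ∀ x y, 0 ≤ x → 0 ≤ y → 0 ≤ φ x y

/-- `c` is the norm of the bilinear map `φ` -/
def BilNorm (φ : X → Y → Z) (c : ℝ) : Prop :=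
  IsLeast {d : ℝ | 0 ≤ d ∧ ∀ x y, ‖φ x y‖ ≤ d * ‖x‖ * ‖y‖} c

/-- `T` is a bounded positive linear map through which `φ` factors over `τ` -/
def Factor (τ : X → Y → P) (φ : X → Y → Z) (T : P →L[ℝ] Z) : Prop :=
  (∀ u, 0 ≤ u → 0 ≤ T u) ∧ ∀ x y, T (τ x y) = φ x y

/-- `P` with the bounded positive bilinear map `τ` is the Fremlin tensor product of `X` and `Y`:
every bounded positive bilinear map factors through a unique bounded positive linear map, which
has the same norm. -/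
def IsFremlin (τ : X → Y → P) : Prop :=
  PosBil τ ∧ ∀ (Z : Type) [BanachLattice Z] (φ : X → Y → Z), PosBil φ →
    ∃ T : P →L[ℝ] Z, Factor τ φ T ∧ BilNorm φ ‖T‖ ∧ ∀ T', Factor τ φ T' → T' = T

end Pool.Agent.H.MP_11a8c1_an
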